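import Pool.Agent.H51.EM.Targets

/-!
# The rows are independent at a point very near `X0` (an adaptation of
`Pool/Agent/H86/EI/RANK.lean`)
-/

set_option autoImplicit false

open Polynomial Finset

namespace Pool.Agent.H49.EM.RANK

open Pool.Agent.H51.EM
open Pool.Agent.H51.EI (Disc toC ev plen rts vv ResP FR RP FTI phq thq KK KX)
open Pool.Agent.H25.EE (Idx Ix mlt nd s0 s1 hn EX exo gt GG VJ thr phi bN bH)

private theorem nd_abs {J : ℕ} {x : ℤ × ℤ} (hx : x ∈ nd J) :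
    |(x.1 : ℝ)| ≤ J ∧ |(x.2 : ℝ)| ≤ J := by
  unfold nd at hx
  rw [Finset.mem_product, Finset.mem_Icc, Finset.mem_Icc] at hx
  refine ⟨abs_le.2 ⟨?_, ?_⟩, abs_le.2 ⟨?_, ?_⟩⟩
  · exact_mod_cast hx.1.1
  · exact_mod_cast hx.1.2
  · exact_mod_cast hx.2.1
  · exact_mod_cast hx.2.2

/-- linear form at a node -/
private theorem lin_le (a b c : ℂ) {J : ℕ} {x : ℤ × ℤ} (hx : x ∈ nd J) :
    ‖((x.1 : ℂ) * a + x.2 * b) / c‖ ≤ (‖a‖ + ‖b‖) / ‖c‖ * J := by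
  obtain ⟨h1, h2⟩ := nd_abs hx
  rw [norm_div, div_mul_eq_mul_div]
  refine div_le_div_of_nonneg_right ?_ (norm_nonneg c)
  refine (norm_add_le _ _).trans ?_
  rw [norm_mul, norm_mul, Complex.norm_intCast, Complex.norm_intCast, add_mul]
  have e1 := mul_le_mul_of_nonneg_right h1 (norm_nonneg a)
  have e2 := mul_le_mul_of_nonneg_right h2 (norm_nonneg b)
  linarith

variable {O : Subring ℂ} {X0 : ℂ}

private theorem rho_one (π : Par O X0) : 1 ≤ rho π := by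
  unfold rho
  have e1 : 0 ≤ (‖ev (π.x 0) X0‖ + ‖ev (π.x 1) X0‖) / ‖ev π.B X0‖ := by positivity
  have e2 : 0 ≤ (‖ev (π.y 0) X0‖ + ‖ev (π.y 1) X0‖) / ‖ev π.A X0‖ := by positivity
  linarith

private theorem om_le (π : Par O X0) {J : ℕ} {x : ℤ × ℤ} (hx : x ∈ nd J) :
    ‖om π x‖ ≤ rho π * J := by
  unfold om
  refine (lin_le _ _ _ hx).trans (mul_le_mul_of_nonneg_right ?_ (Nat.cast_nonneg J))
  unfold rho
  have e2 : 0 ≤ (‖ev (π.y 0) X0‖ + ‖ev (π.y 1) X0‖) / ‖ev π.A X0‖ := by positivity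
  linarith

private theorem ze_le (π : Par O X0) {J : ℕ} {x : ℤ × ℤ} (hx : x ∈ nd J) :
    ‖ze π x‖ ≤ rho π * J := by
  unfold ze
  refine (lin_le _ _ _ hx).trans (mul_le_mul_of_nonneg_right ?_ (Nat.cast_nonneg J))
  unfold rho
  have e1 : 0 ≤ (‖ev (π.x 0) X0‖ + ‖ev (π.x 1) X0‖) / ‖ev π.B X0‖ := by positivity
  linarith

private lemma card_Ix (σ : ℚ) (J : ℕ) : (Ix σ J).card = ∑ x ∈ nd J, mlt σ J x := by
  unfold Ix
  rw [Finset.card_sigma]
  simp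

private lemma mem_Ix {σ : ℚ} {J : ℕ} {x : ℤ × ℤ} {i : ℕ} :
    (⟨x, i⟩ : Idx) ∈ Ix σ J ↔ x ∈ nd J ∧ i < mlt σ J x := by
  unfold Ix
  rw [Finset.mem_sigma, Finset.mem_range]

private lemma thq_nonneg (q J : ℕ) : 0 ≤ thq q J := by
  unfold thq
  have : 0 ≤ Real.log J := Real.log_natCast_nonneg J
  positivity

private lemma one_le_log {J : ℕ} (hJ : 3 ≤ J) : 1 ≤ Real.log J := by
  rw [Real.le_log_iff_exp_le (by positivity)]
  have h1 := Real.exp_one_lt_d9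
  have h2 : (3 : ℝ) ≤ J := by exact_mod_cast hJ
  linarith

private lemma thq_le {q J : ℕ} (hq : 1 ≤ q) : thq q J ≤ (J : ℝ) ^ 4 * Real.log J := by
  unfold thq
  have h0 : 0 ≤ Real.log J := Real.log_natCast_nonneg J
  refine mul_le_mul_of_nonneg_right ?_ h0
  have hq' : (1 : ℝ) ≤ q := by exact_mod_cast hq
  rw [div_le_iff₀ (by linarith)]
  have h1 : (0 : ℝ) ≤ (J : ℝ) ^ 4 := by positivity
  nlinarith

private lemma colbound (π : Par O X0) {u v : Fin 2 → Fin 2 → O} {C C' : ℝ} (hC : 0 ≤ C)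
    (hC' : 0 ≤ C') {J k' : ℕ} (hJ : 3 ≤ J)
    (hBa : ∀ a ∈ Ix (t0 π) J, Real.exp (-(C * (J : ℝ) ^ 2 * Real.log J)) ≤ ‖ra π a‖ ∧
      ∀ n : ℕ, ‖al π a n‖ ≤
      Real.exp (C * (J : ℝ) ^ 2 * Real.log J) * ((n : ℝ) + 1) ^ (J ^ 2) * (rho π * J) ^ n)
    (hBb : ∀ b ∈ Ix (t1 π) J, Real.exp (-(C * (J : ℝ) ^ 2 * Real.log J)) ≤ ‖cb π u v J b‖ ∧
      ∀ n : ℕ, ‖be π u v J b n‖ ≤
      Real.exp (C * (J : ℝ) ^ 2 * Real.log J) * ((n : ℝ) + 1) ^ (J ^ 2) * (rho π * J) ^ n /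
        n.factorial)
    (hDf : ∀ a ∈ Ix (t0 π) J, ∀ b ∈ Ix (t1 π) J, ∃ S : ℂ,
      HasSum (fun n => al π a n * be π u v J b n) S ∧ ∀ x : ℂ, ‖x - X0‖ ≤ 1 →
      ‖ev (mm π u v J a b) x - S‖ ≤
        (‖x - X0‖ + Real.exp (-((J : ℝ) ^ 4 * Real.log J))) *
          Real.exp (C' * (J : ℝ) ^ 2 * Real.log J))
    {τ : ℝ} (hsum : Summable (gt 0 (rho π) J)) (htail : ∑' n, gt 0 (rho π) J (n + k') ≤ τ)
    {α : ℂ} (hα : ‖α - X0‖ ≤ Real.exp (-(thq (qq π) J))) {c : Idx → ℂ}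
    (hc : ∀ b ∈ Ix (t1 π) J, ∑ a ∈ Ix (t0 π) J, c a * ev (mm π u v J a b) α = 0)
    {m0 : ℝ} (hm0 : 0 ≤ m0) (hm : ∀ a ∈ Ix (t0 π) J, ‖c a * ra π a‖ ≤ m0) (b : Idx)
    (hb : b ∈ Ix (t1 π) J) :
    ‖∑ n ∈ range k', (∑ a ∈ Ix (t0 π) J, c a * al π a n) / (n.factorial : ℂ) *
      ((n.descFactorial b.2 : ℂ) * ze π b.1 ^ (n - b.2))‖ ≤
      (Ix (t0 π) J).card * m0 * (Real.exp ((4 * C + C' + 1) * (J : ℝ) ^ 2 * Real.log J) *
        (Real.exp (-(thq (qq π) J)) + τ)) := by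
  have hL := one_le_log hJ
  have hq : 1 ≤ qq π := Nat.one_le_pow _ _ π.hr
  set M : ℝ := Real.exp (C * (J : ℝ) ^ 2 * Real.log J) with hM
  have hM0 : 0 < M := Real.exp_pos _
  have hMi : Real.exp (-(C * (J : ℝ) ^ 2 * Real.log J)) = M⁻¹ := by rw [Real.exp_neg]
  set k : ℝ := ((Ix (t0 π) J).card : ℝ) with hk
  have hk0 : 0 ≤ k := Nat.cast_nonneg _
  have hρ : 0 ≤ rho π * J := mul_nonneg (by linarith [rho_one π]) (Nat.cast_nonneg _)
  have hca : ∀ a ∈ Ix (t0 π) J, ‖c a‖ ≤ m0 * M := by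
    intro a ha
    have h1 := (hBa a ha).1
    rw [hMi] at h1
    have h2 : 1 ≤ M * ‖ra π a‖ := by
      have := mul_le_mul_of_nonneg_left h1 hM0.le
      rwa [mul_inv_cancel₀ hM0.ne'] at this
    calc ‖c a‖ = ‖c a‖ * 1 := (mul_one _).symm
      _ ≤ ‖c a‖ * (M * ‖ra π a‖) := mul_le_mul_of_nonneg_left h2 (norm_nonneg _)
      _ = ‖c a * ra π a‖ * M := by rw [norm_mul]; ring
      _ ≤ m0 * M := mul_le_mul_of_nonneg_right (hm a ha) hM0.le
  have hDb : ∀ a ∈ Ix (t0 π) J, ∃ S : ℂ,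
      HasSum (fun n => al π a n * be π u v J b n) S ∧ ∀ x : ℂ, ‖x - X0‖ ≤ 1 →
      ‖ev (mm π u v J a b) x - S‖ ≤
        (‖x - X0‖ + Real.exp (-((J : ℝ) ^ 4 * Real.log J))) *
          Real.exp (C' * (J : ℝ) ^ 2 * Real.log J) := fun a ha => hDf a ha b hb
  choose! Sv hSv using hDb
  have hS : HasSum (fun n => (∑ a ∈ Ix (t0 π) J, c a * al π a n) * be π u v J b n)
      (∑ a ∈ Ix (t0 π) J, c a * Sv a) := by
    have h1 := hasSum_sum (s := Ix (t0 π) J) (f := fun a n => c a * (al π a n * be π u v J b n))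
      (a := fun a => c a * Sv a) fun a ha => (hSv a ha).1.mul_left (c a)
    have e1 : (fun n => ∑ a ∈ Ix (t0 π) J, c a * (al π a n * be π u v J b n)) =
        fun n => (∑ a ∈ Ix (t0 π) J, c a * al π a n) * be π u v J b n := by
      funext n
      rw [Finset.sum_mul]
      exact Finset.sum_congr rfl fun a _ => by ring
    rwa [e1] at h1
  -- the value at `e`
  have hthr : Real.exp (-(thq (qq π) J)) ≤ 1 := by
    rw [← Real.exp_zero]
    exact Real.exp_le_exp.mpr (by linarith [thq_nonneg (qq π) J])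
  have hthr2 : Real.exp (-((J : ℝ) ^ 4 * Real.log J)) ≤ Real.exp (-(thq (qq π) J)) :=
    Real.exp_le_exp.mpr (by linarith [thq_le (J := J) hq])
  have hS1 : ‖∑ a ∈ Ix (t0 π) J, c a * Sv a‖ ≤
      k * (m0 * M * (2 * Real.exp (-(thq (qq π) J)) *
        Real.exp (C' * (J : ℝ) ^ 2 * Real.log J))) := by
    have e1 : ∑ a ∈ Ix (t0 π) J, c a * Sv a =
        -∑ a ∈ Ix (t0 π) J, c a * (ev (mm π u v J a b) α - Sv a) := by
      have h2 := hc b hb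
      have e2 : ∑ a ∈ Ix (t0 π) J, c a * (ev (mm π u v J a b) α - Sv a) =
          ∑ a ∈ Ix (t0 π) J, c a * ev (mm π u v J a b) α -
            ∑ a ∈ Ix (t0 π) J, c a * Sv a := by
        rw [← Finset.sum_sub_distrib]
        exact Finset.sum_congr rfl fun a _ => by ring
      rw [e2, h2]
      ring
    rw [e1, norm_neg]
    refine (norm_sum_le _ _).trans ?_
    rw [hk, ← nsmul_eq_mul]
    refine Finset.sum_le_card_nsmul _ _ _ fun a ha => ?_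
    rw [norm_mul]
    refine mul_le_mul (hca a ha) ?_ (norm_nonneg _) (by positivity)
    refine ((hSv a ha).2 α (hα.trans hthr)).trans ?_
    refine mul_le_mul_of_nonneg_right ?_ (Real.exp_nonneg _)
    linarith
  -- the terms
  have hterm : ∀ n : ℕ, ‖(∑ a ∈ Ix (t0 π) J, c a * al π a n) * be π u v J b n‖ ≤
      (k * m0 * M ^ 3) * gt 0 (rho π) J n := by
    intro n
    have h1 : ‖∑ a ∈ Ix (t0 π) J, c a * al π a n‖ ≤
        k * (m0 * M * (M * ((n : ℝ) + 1) ^ (J ^ 2) * (rho π * J) ^ n)) := by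
      refine (norm_sum_le _ _).trans ?_
      rw [hk, ← nsmul_eq_mul]
      refine Finset.sum_le_card_nsmul _ _ _ fun a ha => ?_
      rw [norm_mul]
      exact mul_le_mul (hca a ha) ((hBa a ha).2 n) (norm_nonneg _) (by positivity)
    rw [norm_mul]
    refine (mul_le_mul h1 ((hBb b hb).2 n) (norm_nonneg _) (by positivity)).trans (le_of_eq ?_)
    unfold gt
    rw [zero_mul, Real.exp_zero, one_mul, show 2 * J ^ 2 = J ^ 2 + J ^ 2 by ring,
      show 2 * n = n + n by ring, pow_add, pow_add]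
    ring
  have hgt : ∀ n, 0 ≤ gt 0 (rho π) J n := by
    intro n
    unfold gt
    positivity
  have hsumk : Summable fun n => gt 0 (rho π) J (n + k') := (summable_nat_add_iff k').mpr hsum
  have hτ : 0 ≤ τ := le_trans (tsum_nonneg fun n => hgt _) htail
  have htail2 : ‖∑' n, (∑ a ∈ Ix (t0 π) J, c a * al π a (n + k')) * be π u v J b (n + k')‖ ≤
      (k * m0 * M ^ 3) * τ := by
    have h1 := tsum_of_norm_bounded (hsumk.mul_left (k * m0 * M ^ 3)).hasSum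
      fun n => hterm (n + k')
    rw [tsum_mul_left] at h1
    exact h1.trans (mul_le_mul_of_nonneg_left htail (by positivity))
  have hhead : ‖∑ n ∈ range k', (∑ a ∈ Ix (t0 π) J, c a * al π a n) * be π u v J b n‖ ≤
      k * (m0 * M * (2 * Real.exp (-(thq (qq π) J)) *
        Real.exp (C' * (J : ℝ) ^ 2 * Real.log J))) + (k * m0 * M ^ 3) * τ := by
    have h1 := hS.summable.sum_add_tsum_nat_add k'
    rw [hS.tsum_eq] at h1
    have h2 : ∑ n ∈ range k', (∑ a ∈ Ix (t0 π) J, c a * al π a n) * be π u v J b n =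
        ∑ a ∈ Ix (t0 π) J, c a * Sv a -
          ∑' n, (∑ a ∈ Ix (t0 π) J, c a * al π a (n + k')) * be π u v J b (n + k') := by
      rw [← h1]
      ring
    rw [h2]
    exact (norm_sub_le _ _).trans (add_le_add hS1 htail2)
  have hcb := (hBb b hb).1
  rw [hMi] at hcb
  have hcb0 : cb π u v J b ≠ 0 := by
    intro h
    rw [h, norm_zero] at hcb
    have := inv_pos.mpr hM0
    linarith
  have e3 : ∑ n ∈ range k', (∑ a ∈ Ix (t0 π) J, c a * al π a n) / (n.factorial : ℂ) *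
      ((n.descFactorial b.2 : ℂ) * ze π b.1 ^ (n - b.2)) =
      (cb π u v J b)⁻¹ * ∑ n ∈ range k', (∑ a ∈ Ix (t0 π) J, c a * al π a n) *
        be π u v J b n := by
    rw [Finset.mul_sum]
    refine Finset.sum_congr rfl fun n _ => ?_
    unfold be
    field_simp
  have hcbi : ‖(cb π u v J b)⁻¹‖ ≤ M := by
    rw [norm_inv]
    exact inv_le_of_inv_le₀ hM0 hcb
  rw [e3, norm_mul]
  refine (mul_le_mul hcbi hhead (norm_nonneg _) hM0.le).trans ?_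
  have hJr : (3 : ℝ) ≤ J := by exact_mod_cast hJ
  have hJJ : (1 : ℝ) ≤ (J : ℝ) ^ 2 * Real.log J := by nlinarith
  have hJ2 : 0 ≤ C * (J : ℝ) ^ 2 * Real.log J := by positivity
  have hJ2' : 0 ≤ C' * (J : ℝ) ^ 2 * Real.log J := by positivity
  have h2e : (2 : ℝ) ≤ Real.exp ((J : ℝ) ^ 2 * Real.log J) := by
    have h1 := Real.add_one_le_exp ((J : ℝ) ^ 2 * Real.log J)
    linarith
  have h4 : M * M * (2 * Real.exp (C' * (J : ℝ) ^ 2 * Real.log J)) ≤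
      Real.exp ((4 * C + C' + 1) * (J : ℝ) ^ 2 * Real.log J) := by
    calc M * M * (2 * Real.exp (C' * (J : ℝ) ^ 2 * Real.log J))
        ≤ M * M * (Real.exp ((J : ℝ) ^ 2 * Real.log J) *
          Real.exp (C' * (J : ℝ) ^ 2 * Real.log J)) := by gcongr
      _ = Real.exp (C * (J : ℝ) ^ 2 * Real.log J + C * (J : ℝ) ^ 2 * Real.log J +
          ((J : ℝ) ^ 2 * Real.log J + C' * (J : ℝ) ^ 2 * Real.log J)) := by
          rw [hM, Real.exp_add, Real.exp_add, Real.exp_add]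
      _ ≤ _ := by
          refine Real.exp_le_exp.mpr ?_
          nlinarith
  have h5 : M * M ^ 3 ≤ Real.exp ((4 * C + C' + 1) * (J : ℝ) ^ 2 * Real.log J) := by
    have e4 : M * M ^ 3 = Real.exp (4 * (C * (J : ℝ) ^ 2 * Real.log J)) := by
      rw [← pow_succ', hM, ← Real.exp_nat_mul]
      norm_num
    rw [e4]
    refine Real.exp_le_exp.mpr ?_
    nlinarith
  calc M * (k * (m0 * M * (2 * Real.exp (-(thq (qq π) J)) *
        Real.exp (C' * (J : ℝ) ^ 2 * Real.log J))) + (k * m0 * M ^ 3) * τ) =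
        (k * m0) * ((M * M * (2 * Real.exp (C' * (J : ℝ) ^ 2 * Real.log J))) *
          Real.exp (-(thq (qq π) J)) + (M * M ^ 3) * τ) := by ring
    _ ≤ (k * m0) * (Real.exp ((4 * C + C' + 1) * (J : ℝ) ^ 2 * Real.log J) *
          Real.exp (-(thq (qq π) J)) +
            Real.exp ((4 * C + C' + 1) * (J : ℝ) ^ 2 * Real.log J) * τ) := by
        gcongr
    _ = _ := by ring

/-- the chain of inequalities -/
private lemma small {J k n : ℕ} {R g E : ℝ} (hR : 1 ≤ R) (hJ : 1 ≤ J) (hn : n < k)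
    (hkJ : k ≤ J ^ 4) (hE : 0 ≤ E)
    (h : g / n.factorial * (R * J) ^ n ≤ E) : g ≤ (J : ℝ) ^ (2 * k) * E * (R * J) ^ n := by
  have hJ' : (1 : ℝ) ≤ J := by exact_mod_cast hJ
  have hRJ : (J : ℝ) ≤ R * J := le_mul_of_one_le_left (by linarith) hR
  have hRJ1 : 1 ≤ R * J := hJ'.trans hRJ
  have hf : (0 : ℝ) < n.factorial := by exact_mod_cast Nat.factorial_pos n
  have h1 : (n.factorial : ℝ) ≤ (J : ℝ) ^ (4 * n) := by
    have h2 : n.factorial ≤ n ^ n := Nat.factorial_le_pow n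
    have h3 : n ^ n ≤ (J ^ 4) ^ n := Nat.pow_le_pow_left (by omega) n
    have h4 := h2.trans h3
    rw [← pow_mul] at h4
    exact_mod_cast h4
  have h5 : g * (R * J) ^ n ≤ E * n.factorial := by
    rw [div_mul_eq_mul_div, div_le_iff₀ hf] at h
    exact h
  have h6 : (J : ℝ) ^ (4 * n) ≤ (J : ℝ) ^ (2 * k) * ((R * J) ^ n * (R * J) ^ n) := by
    have h7 : (J : ℝ) ^ n * (J : ℝ) ^ n ≤ (R * J) ^ n * (R * J) ^ n := by gcongr
    have h8 : (J : ℝ) ^ (2 * n) ≤ (J : ℝ) ^ (2 * k) := pow_le_pow_right₀ hJ' (by omega)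
    calc (J : ℝ) ^ (4 * n) = (J : ℝ) ^ (2 * n) * ((J : ℝ) ^ n * (J : ℝ) ^ n) := by ring
      _ ≤ _ := by gcongr
  have h9 : g * (R * J) ^ n ≤ ((J : ℝ) ^ (2 * k) * E * (R * J) ^ n) * (R * J) ^ n := by
    calc g * (R * J) ^ n ≤ E * n.factorial := h5
      _ ≤ E * ((J : ℝ) ^ (2 * k) * ((R * J) ^ n * (R * J) ^ n)) := by
        exact mul_le_mul_of_nonneg_left (h1.trans h6) hE
      _ = _ := by ring
  exact le_of_mul_le_mul_right h9 (by positivity)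

theorem pf_RANK (hBND : T_BND) (hDIFF : T_DIFF) (hRL : Pool.Agent.H25.EE.T_RL)
    (hDUAL : Pool.Agent.H25.EE.T_DUAL) (hSPR : T_SPR) (hSEP : T_SEP)
    (hTAIL : Pool.Agent.H51.EI.T_TAIL) (hNUM : Pool.Agent.H51.EI.T_NUM)
    (hCARD : Pool.Agent.H51.EI.T_CARD) : T_RANK := by
  intro O X0 π
  have hq : 1 ≤ qq π := Nat.one_le_pow _ _ π.hr
  obtain ⟨C, hC, hB⟩ := hBND O X0 π
  obtain ⟨C', hC', J1, hD⟩ := hDIFF O X0 π
  obtain ⟨C2, hC2, hS⟩ := hSPR O X0 π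
  obtain ⟨J2, hQ0⟩ := hSEP O X0 π (t0 π) (Or.inl rfl) (1 / 10000) (by norm_num)
  obtain ⟨J3, hQ1⟩ := hSEP O X0 π (t1 π) (Or.inr rfl) (1 / 10000) (by norm_num)
  obtain ⟨J4, hT⟩ := hTAIL (rho π) (1 / 10000) (qq π) (rho_one π) (by norm_num) hq
  obtain ⟨J5, hN⟩ := hNUM (rho π) (4 * C + C' + 1) C2 (qq π) (rho_one π) (by positivity) hC2 hq
  obtain ⟨hc1, hc2, hc3, ⟨J6, hc4⟩, hc5⟩ := hCARD (qq π) hq
  refine ⟨J1 + J2 + J3 + J4 + J5 + J6 + 200 * qq π + 200, fun J hJ u v huv α hα c hc => ?_⟩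
  have hJ200 : 200 ≤ J := by omega
  have hJq : 200 * qq π ≤ J := by omega
  have hJ1' : 1 ≤ J := by omega
  have hJr : (200 : ℝ) ≤ J := by exact_mod_cast hJ200
  have hJqr : 200 * (qq π : ℝ) ≤ J := by exact_mod_cast hJq
  have hqr : (1 : ℝ) ≤ (qq π : ℝ) := by exact_mod_cast hq
  have hL := one_le_log (J := J) (by omega)
  have hB' := hB J (by omega) u v huv
  have hD' := hD J (by omega) u v huv
  have hS' := hS J (by omega)
  have hQ0' := hQ0 J (by omega)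
  have hQ1' := hQ1 J (by omega)
  obtain ⟨hTs, hT'⟩ := hT J (by omega)
  have hN' := hN J (by omega)
  have hk1 : ((Ix (t0 π) J).card : ℝ) ≤ 2 / 1125 * (J : ℝ) ^ 4 / (qq π : ℝ) := hc1 J hJ1'
  have hk2 : ((Ix (t1 π) J).card : ℝ) ≤ 1001 / 1000 * (2 / 1125) * (J : ℝ) ^ 4 / (qq π : ℝ) :=
    hc2 J hJ1'
  have hk3 : 2 / 1125 * (J : ℝ) ^ 4 / (qq π : ℝ) - 10 * (J : ℝ) ^ 2 ≤ (Ix (t0 π) J).card :=
    hc3 J hJ1'
  have hk4 : 10009 / 10000 * (2 / 1125) * (J : ℝ) ^ 4 / (qq π : ℝ) ≤ (Ix (t1 π) J).card :=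
    hc4 J (by omega)
  have hml : ∀ x ∈ nd J, mlt (t0 π) J x ≤ J ^ 2 ∧ mlt (t1 π) J x ≤ J ^ 2 := hc5 J
  set k := (Ix (t0 π) J).card with hk
  set k' := (Ix (t1 π) J).card with hk'
  have hq0 : (0 : ℝ) < (qq π : ℝ) := by linarith
  have hJ4 : (0 : ℝ) < (J : ℝ) ^ 4 := by positivity
  have hJ24 : (40000 : ℝ) * (qq π : ℝ) * (J : ℝ) ^ 2 ≤ (J : ℝ) ^ 4 := by
    have : (40000 : ℝ) * (qq π : ℝ) ≤ (J : ℝ) ^ 2 := by nlinarith
    calc (40000 : ℝ) * (qq π : ℝ) * (J : ℝ) ^ 2 ≤ (J : ℝ) ^ 2 * (J : ℝ) ^ 2 := by gcongr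
      _ = _ := by ring
  have hk1000 : J ^ 4 ≤ 1000 * qq π * k := by
    have h1 : (2 / 1125 * (J : ℝ) ^ 4 / (qq π : ℝ) - 10 * (J : ℝ) ^ 2) * (qq π : ℝ) ≤
        k * (qq π : ℝ) := mul_le_mul_of_nonneg_right hk3 hq0.le
    have h2 : (2 / 1125 * (J : ℝ) ^ 4 / (qq π : ℝ) - 10 * (J : ℝ) ^ 2) * (qq π : ℝ) =
        2 / 1125 * (J : ℝ) ^ 4 - 10 * (qq π : ℝ) * (J : ℝ) ^ 2 := by
      field_simp
    have : ((J ^ 4 : ℕ) : ℝ) ≤ ((1000 * qq π * k : ℕ) : ℝ) := by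
      push_cast
      nlinarith
    exact_mod_cast this
  have hk'1000 : J ^ 4 ≤ 1000 * qq π * k' := by
    have h1 := mul_le_mul_of_nonneg_right hk4 hq0.le
    have h2 : 10009 / 10000 * (2 / 1125) * (J : ℝ) ^ 4 / (qq π : ℝ) * (qq π : ℝ) =
        10009 / 10000 * (2 / 1125) * (J : ℝ) ^ 4 := by
      field_simp
    have : ((J ^ 4 : ℕ) : ℝ) ≤ ((1000 * qq π * k' : ℕ) : ℝ) := by
      push_cast
      nlinarith
    exact_mod_cast this
  have hJq4 : (J : ℝ) ^ 4 / (qq π : ℝ) ≤ (J : ℝ) ^ 4 := div_le_self hJ4.le hqr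
  have hJq40 : 0 ≤ (J : ℝ) ^ 4 / (qq π : ℝ) := by positivity
  have hkk' : k ≤ k' := by
    have : (k : ℝ) ≤ (k' : ℝ) := by
      refine hk1.trans (le_trans ?_ hk4)
      rw [mul_div_assoc, mul_div_assoc]
      nlinarith
    exact_mod_cast this
  have hk'4 : k' ≤ J ^ 4 := by
    have : (k' : ℝ) ≤ ((J ^ 4 : ℕ) : ℝ) := by
      push_cast
      refine hk2.trans ?_
      rw [mul_div_assoc]
      nlinarith
    exact_mod_cast this
  have htail := hT' k' hk'1000 hk'4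
  have hρ := rho_one π
  have hρJ : 1 ≤ rho π * J := by nlinarith
  -- the separation
  set δ : ℝ := Real.exp (-(C2 * J * Real.log J)) with hδ
  have hδ0 : 0 < δ := Real.exp_pos _
  have hδ1 : δ ≤ 1 := by
    rw [hδ, ← Real.exp_zero]
    refine Real.exp_le_exp.mpr ?_
    have : 0 ≤ C2 * J * Real.log J := by positivity
    linarith
  have hδi : ∀ x : ℝ, x / δ = x * Real.exp (C2 * J * Real.log J) := by
    intro x
    rw [hδ, Real.exp_neg, div_inv_eq_mul]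
  -- the maximum
  by_cases hne : (Ix (t0 π) J).Nonempty
  swap
  · intro a ha
    exact absurd ⟨a, ha⟩ hne
  obtain ⟨a0, ha0, hmax⟩ := Finset.exists_max_image (Ix (t0 π) J) (fun a => ‖c a * ra π a‖) hne
  set m0 := ‖c a0 * ra π a0‖ with hm0
  have hra : ∀ a ∈ Ix (t0 π) J, ra π a ≠ 0 := by
    intro a ha h
    have := (hB'.1 a ha).1
    rw [h, norm_zero] at this
    exact absurd this (not_le.mpr (Real.exp_pos _))
  rcases (norm_nonneg (c a0 * ra π a0)).eq_or_lt with h0 | hpos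
  · intro a ha
    have h1 : ‖c a * ra π a‖ ≤ 0 := by
      rw [h0]
      exact hmax a ha
    have h2 : c a * ra π a = 0 := norm_le_zero_iff.mp h1
    exact (mul_eq_zero.mp h2).resolve_right (hra a ha)
  exfalso
  rw [← hm0] at hpos
  set E : ℝ := (k : ℝ) * m0 * (Real.exp ((4 * C + C' + 1) * (J : ℝ) ^ 2 * Real.log J) *
    (Real.exp (-(thq (qq π) J)) + Real.exp (-((2 - 1 / 10000) * k' * Real.log J)))) with hE
  have hE0 : 0 ≤ E := by positivity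
  clear_value E
  have hcol : ∀ b ∈ Ix (t1 π) J, ‖∑ n ∈ range k', (∑ a ∈ Ix (t0 π) J, c a * al π a n) /
      (n.factorial : ℂ) * ((n.descFactorial b.2 : ℂ) * ze π b.1 ^ (n - b.2))‖ ≤ E := by
    intro b hb
    rw [hE]
    exact colbound π hC hC' (by omega) hB'.1 hB'.2 hD' hTs htail hα hc hpos.le hmax b hb
  -- Hermite interpolation
  have hdual := hDUAL (ℤ × ℤ) (nd J) (ze π) (mlt (t1 π) J) (rho π * J) δ E
    (Real.exp ((1 - 1 / 10000) * k' * Real.log J)) (J ^ 2)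
    (fun n => (∑ a ∈ Ix (t0 π) J, c a * al π a n) / (n.factorial : ℂ)) hρJ hδ0 hδ1 hE0
    (Real.exp_pos _) (Nat.one_le_pow _ _ (by omega))
    (fun x hx => ⟨ze_le π hx, (hml x hx).2⟩)
    (fun x hx y hy hxy => (hS' x hx y hy hxy).2)
    (fun x hx => (hQ1' x hx).2)
    (fun x hx i hi => by
      rw [← card_Ix]
      exact hcol ⟨x, i⟩ (mem_Ix.mpr ⟨hx, hi⟩))
  rw [← card_Ix, ← hk', hδi] at hdual
  set Λ' : ℝ := (2 * (rho π * J)) ^ k' / Real.exp ((1 - 1 / 10000) * k' * Real.log J) *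
      (2 * (J : ℝ) ^ 2 * k' * Real.exp (C2 * J * Real.log J)) ^ (J ^ 2) with hΛ'
  have hΛ'0 : 0 ≤ Λ' := by positivity
  clear_value Λ'
  have hkEΛ : 0 ≤ (k' : ℝ) * E * Λ' := mul_nonneg (mul_nonneg (Nat.cast_nonneg _) hE0) hΛ'0
  have hJk : 0 ≤ (J : ℝ) ^ (2 * k) * (k' * E * Λ') :=
    mul_nonneg (pow_nonneg (Nat.cast_nonneg _) _) hkEΛ
  have hG : ∀ n < k, ‖∑ a ∈ Ix (t0 π) J, c a * al π a n‖ ≤
      ((J : ℝ) ^ (2 * k) * (k' * E * Λ')) * (rho π * J) ^ n := by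
    intro n hn
    have h1 := hdual n (lt_of_lt_of_le hn hkk')
    rw [norm_div, Complex.norm_natCast] at h1
    refine small hρ hJ1' hn (hkk'.trans hk'4) hkEΛ (h1.trans (le_of_eq ?_))
    rw [hΛ']
    push_cast
    ring
  -- recovery of the coefficients
  have hrl := hRL (ℤ × ℤ) (nd J) (om π) (mlt (t0 π) J) (fun x i => c ⟨x, i⟩ * ra π ⟨x, i⟩)
    (rho π * J) δ ((J : ℝ) ^ (2 * k) * (k' * E * Λ'))
    (Real.exp ((1 - 1 / 10000) * k * Real.log J)) (J ^ 2) hρJ hδ0 hδ1 hJk (Real.exp_pos _)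
    (Nat.one_le_pow _ _ (by omega))
    (fun x hx => ⟨om_le π hx, (hml x hx).1⟩)
    (fun x hx y hy hxy => (hS' x hx y hy hxy).1)
    (fun x hx => (hQ0' x hx).1)
    (fun n hn => by
      rw [← card_Ix] at hn
      refine le_trans (le_of_eq ?_) (hG n hn)
      congr 1
      unfold Ix
      rw [Finset.sum_sigma]
      refine Finset.sum_congr rfl fun x _ => Finset.sum_congr rfl fun i _ => ?_
      unfold al
      ring)
  rw [← card_Ix, ← hk] at hrl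
  obtain ⟨ha1, ha2⟩ := mem_Ix.mp (show (⟨a0.1, a0.2⟩ : Idx) ∈ Ix (t0 π) J from ha0)
  have hfin := hrl a0.1 ha1 a0.2 ha2
  have hnum := hN' k k' hk1 hk1000 hk4 hk2
  have e1 : ((J : ℝ) ^ (2 * k) * (k' * E * Λ')) *
      ((2 * (rho π * J)) ^ k / Real.exp ((1 - 1 / 10000) * k * Real.log J)) *
      (2 * ((J ^ 2 : ℕ) : ℝ) * (k : ℝ) / δ) ^ (J ^ 2) =
      m0 * ((J : ℝ) ^ (2 * k) * ((k : ℝ) * k') *
    ((2 * (rho π * J)) ^ k' / Real.exp ((1 - 1 / 10000) * k' * Real.log J) *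
      (2 * (J : ℝ) ^ 2 * k' * Real.exp (C2 * J * Real.log J)) ^ (J ^ 2)) *
    ((2 * (rho π * J)) ^ k / Real.exp ((1 - 1 / 10000) * k * Real.log J) *
      (2 * (J : ℝ) ^ 2 * k * Real.exp (C2 * J * Real.log J)) ^ (J ^ 2)) *
    (Real.exp ((4 * C + C' + 1) * (J : ℝ) ^ 2 * Real.log J) * (Real.exp (-(thq (qq π) J)) +
      Real.exp (-((2 - 1 / 10000) * k' * Real.log J))))) := by
    rw [hE, hΛ', hδi]
    push_cast
    ring
  have hlt : m0 < m0 := by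
    calc m0 ≤ ((J : ℝ) ^ (2 * k) * (k' * E * Λ')) *
      ((2 * (rho π * J)) ^ k / Real.exp ((1 - 1 / 10000) * k * Real.log J)) *
      (2 * ((J ^ 2 : ℕ) : ℝ) * (k : ℝ) / δ) ^ (J ^ 2) := hfin
      _ = _ := e1
      _ < m0 * 1 := mul_lt_mul_of_pos_left hnum hpos
      _ = m0 := mul_one _
  exact lt_irrefl _ hlt

end Pool.Agent.H49.EM.RANK
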